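import Mathlib
import Pool.Agent.R747.TorseDefs
import Pool.Agent.R747.Graph

/-!
Every semi-torse of class `C¹` in Euclidean 3-space is a surface of bounded extrinsic curvature in
the sense of Pogorelov (in fact its spherical image has area zero).
-/

open scoped Manifold ContDiff

namespace Pool.Agent.Results.MP_88a170_gt.SemiTorseBECP

open Pool.Agent.R747

theorem result {M : Type*} [TopologicalSpace M] [ChartedSpace (EuclideanSpace ℝ (Fin 2)) M]
    [IsManifold (𝓡 2) 1 M] (f : M → E3) (hf : IsC1Immersion f) (hs : IsSemiTorse f) : IsBECP f :=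
  isBECP_of_isSemiTorse hf hs

end Pool.Agent.Results.MP_88a170_gt.SemiTorseBECP
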